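import Mathlib
import Pool.Agent.Results.MP_15d263_co.Aligned

/-!
# Every two-square tile `T(x,y)` admits an idiomeric tiling

The definitions (`Plane`, `sq`, `T`, `IsTiling`, `Monohedral`, `IsSymmetry`, `Isohedral`, `Idiomeric`)
are those of the starting file `Aligned`.  No condition ties the tiles to the square grid: rows
of squares may be shifted against each other.
-/

set_option autoImplicit false

namespace Pool.Agent.Results.MP_15d263_co.AllPairs

open Pool.Agent.Results.MP_15d263_co.Aligned

/-- The reflection exchanging the two coordinates. -/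
noncomputable def swapIso : Plane ≃ᵢ Plane :=
  (LinearIsometryEquiv.piLpCongrLeft 2 ℝ ℝ (Equiv.swap (0 : Fin 2) 1)).toIsometryEquiv

theorem swapIso_zero (z : Plane) : swapIso z 0 = z 1 := by
  simp [swapIso, LinearIsometryEquiv.piLpCongrLeft_apply, Equiv.piCongrLeft'_apply]

theorem swapIso_one (z : Plane) : swapIso z 1 = z 0 := by
  simp [swapIso, LinearIsometryEquiv.piLpCongrLeft_apply, Equiv.piCongrLeft'_apply]

theorem swapIso_swapIso (z : Plane) : swapIso (swapIso z) = z := by
  apply ext2
  · rw [swapIso_zero, swapIso_one]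
  · rw [swapIso_one, swapIso_zero]

theorem swap_sq (u v : ℝ) : swapIso '' sq (pt u v) = sq (pt v u) := by
  ext z
  constructor
  · rintro ⟨w, ⟨h0, h1⟩, rfl⟩
    refine ⟨?_, ?_⟩
    · rw [swapIso_zero]; simpa using h1
    · rw [swapIso_one]; simpa using h0
  · rintro ⟨h0, h1⟩
    refine ⟨swapIso z, ⟨?_, ?_⟩, swapIso_swapIso z⟩
    · rw [swapIso_zero]; simpa using h1
    · rw [swapIso_one]; simpa using h0

theorem swap_T (x y : ℤ) : swapIso '' T x y = T y x := by
  rw [T, T, Set.image_union, swap_sq, swap_sq]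

/-- For all integers `x`, `y` with `max |x| |y| ≥ 2` the tile `T(x,y)` admits an idiomeric tiling of the
plane. -/
theorem result (x y : ℤ) (hxy : 2 ≤ max |x| |y|) :
    ∃ F : Set (Set Plane), IsTiling F ∧ Monohedral F (T x y) ∧ Idiomeric F := by
  by_cases hy : y = 0
  · subst hy
    have hx : x ≠ 0 := by
      rintro rfl
      simp at hxy
    have hx' : (x : ℝ) ≠ 0 := by exact_mod_cast hx
    have hyx : 2 ≤ max |(0 : ℤ)| |x| := by rwa [max_comm]
    obtain ⟨h1, h2, h3⟩ := construction 0 x hyx (-1 / (x : ℝ)) 1 odd_one (by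
      push_cast
      field_simp
      ring)
    refine ⟨_, h1, ?_, h3⟩
    intro t ht
    obtain ⟨g, hg⟩ := h2 t ht
    refine ⟨swapIso.trans g, ?_⟩
    rw [← hg, ← swap_T x 0, Set.image_image]
    rfl
  · have hy' : (y : ℝ) ≠ 0 := by exact_mod_cast hy
    obtain ⟨h1, h2, h3⟩ := construction x y hxy (((x : ℝ) - 1) / y) 1 odd_one (by
      push_cast
      field_simp
      ring)
    exact ⟨_, h1, h2, h3⟩

end Pool.Agent.Results.MP_15d263_co.AllPairs
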